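import Pool.Agent.Q24.HC.Mink

/-!
# A linear lower bound for Hermite's constant
-/

set_option autoImplicit false

namespace Pool.Agent.Q24.HC

open Module

theorem theta1 (K : ℕ) : ∑ x ∈ Finset.Icc (-(K : ℤ)) K, (1 / 2 : ℝ) ^ (x.natAbs ^ 2) ≤ 3 - 2 * (1 / 2) ^ K := by
  induction K with
  | zero => norm_num
  | succ K ih =>
    have h1 : Finset.Icc (-((K + 1 : ℕ) : ℤ)) ((K + 1 : ℕ) : ℤ) =
        insert (-((K + 1 : ℕ) : ℤ)) (insert (((K + 1 : ℕ) : ℤ)) (Finset.Icc (-(K : ℤ)) K)) := by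
      ext x
      simp only [Finset.mem_Icc, Finset.mem_insert]
      push_cast
      omega
    rw [h1, Finset.sum_insert, Finset.sum_insert]
    · have h2 : (-((K + 1 : ℕ) : ℤ)).natAbs = K + 1 := by omega
      have h3 : (((K + 1 : ℕ) : ℤ)).natAbs = K + 1 := by omega
      rw [h2, h3]
      have h4 : (1 / 2 : ℝ) ^ ((K + 1) ^ 2) ≤ (1 / 2) ^ (K + 1) :=
        pow_le_pow_of_le_one (by norm_num) (by norm_num) (by nlinarith)
      have h5 : (1 / 2 : ℝ) ^ (K + 1) = (1 / 2) ^ K / 2 := by rw [pow_succ]; ring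
      rw [h5] at h4 ⊢
      linarith
    · simp only [Finset.mem_Icc]; push_cast; omega
    · simp only [Finset.mem_Icc, Finset.mem_insert]; push_cast; omega

/-- the number of short integral vectors -/
theorem short_card (N : ℕ) (X : Finset (Fin N → ℤ)) (hX : ∀ x ∈ X, ∑ i, (x i) ^ 2 < N) : X.card ≤ 6 ^ N := by
  have hbox : ∀ x ∈ X, x ∈ Fintype.piFinset (fun _ : Fin N => Finset.Icc (-(N : ℤ)) N) := by
    intro x hx
    rw [Fintype.mem_piFinset]
    intro i
    have h1 : (x i) ^ 2 ≤ ∑ i, (x i) ^ 2 := Finset.single_le_sum (f := fun i => (x i) ^ 2)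
      (fun j _ => sq_nonneg _) (Finset.mem_univ i)
    have h2 := hX x hx
    rw [Finset.mem_Icc]
    constructor <;> nlinarith
  have h1 : (X.card : ℝ) ≤ ∑ x ∈ X, 2 ^ N * ∏ i, (1 / 2 : ℝ) ^ ((x i).natAbs ^ 2) := by
    rw [Finset.card_eq_sum_ones, Nat.cast_sum]
    refine Finset.sum_le_sum fun x hx => ?_
    rw [Finset.prod_pow_eq_pow_sum]
    have h2 : ∑ i, (x i).natAbs ^ 2 ≤ N := by
      have h3 := hX x hx
      have h4 : ((∑ i, (x i).natAbs ^ 2 : ℕ) : ℤ) = ∑ i, (x i) ^ 2 := by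
        push_cast
        exact Finset.sum_congr rfl fun i _ => sq_abs _
      omega
    have h3 : (1 / 2 : ℝ) ^ N ≤ (1 / 2) ^ (∑ i, (x i).natAbs ^ 2) :=
      pow_le_pow_of_le_one (by norm_num) (by norm_num) h2
    have h4 : (2 : ℝ) ^ N * (1 / 2) ^ N = 1 := by rw [← mul_pow]; norm_num
    have h5 : (0 : ℝ) < 2 ^ N := by positivity
    rw [Nat.cast_one]
    calc (1 : ℝ) = 2 ^ N * (1 / 2) ^ N := h4.symm
      _ ≤ _ := mul_le_mul_of_nonneg_left h3 h5.le
  have h2 : ∑ x ∈ X, 2 ^ N * ∏ i, (1 / 2 : ℝ) ^ ((x i).natAbs ^ 2) ≤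
      ∑ x ∈ Fintype.piFinset (fun _ : Fin N => Finset.Icc (-(N : ℤ)) N),
        2 ^ N * ∏ i, (1 / 2 : ℝ) ^ ((x i).natAbs ^ 2) :=
    Finset.sum_le_sum_of_subset_of_nonneg hbox fun x _ _ => by positivity
  have h3 : ∑ x ∈ Fintype.piFinset (fun _ : Fin N => Finset.Icc (-(N : ℤ)) N),
        2 ^ N * ∏ i, (1 / 2 : ℝ) ^ ((x i).natAbs ^ 2) ≤ 6 ^ N := by
    rw [← Finset.mul_sum,
      ← Finset.prod_univ_sum (fun _ : Fin N => Finset.Icc (-(N : ℤ)) N) (fun _ y => (1 / 2 : ℝ) ^ (y.natAbs ^ 2)),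
      Finset.prod_const, Finset.card_univ, Fintype.card_fin]
    have h4 := theta1 N
    have h5 : ∑ x ∈ Finset.Icc (-(N : ℤ)) N, (1 / 2 : ℝ) ^ (x.natAbs ^ 2) ≤ 3 := by
      have : (0 : ℝ) < (1 / 2) ^ N := by positivity
      linarith
    have h6 := pow_le_pow_left₀ (Finset.sum_nonneg fun _ _ => by positivity) h5 N
    calc (2 : ℝ) ^ N * _ ≤ 2 ^ N * 3 ^ N := mul_le_mul_of_nonneg_left h6 (by positivity)
      _ = 6 ^ N := by rw [← mul_pow]; norm_num
  exact_mod_cast h1.trans (h2.trans h3)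

/-- the number of linear forms with a given value at a given nonzero vector -/
theorem hyper_card {p n : ℕ} [Fact p.Prime] (y : Fin n → ZMod p) (hy : y ≠ 0) (c : ZMod p) :
    p * (Finset.univ.filter fun b : Fin n → ZMod p => c = ∑ i, b i * y i).card ≤ p ^ n := by
  classical
  obtain ⟨j, hj⟩ : ∃ j, y j ≠ 0 := by
    by_contra h
    push Not at h
    exact hy (funext h)
  have h1 : p * (Finset.univ.filter fun b : Fin n → ZMod p => c = ∑ i, b i * y i).card =
      ((Finset.univ : Finset (ZMod p)) ×ˢ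
        (Finset.univ.filter fun b : Fin n → ZMod p => c = ∑ i, b i * y i)).card := by
    rw [Finset.card_product, Finset.card_univ, ZMod.card]
  have h2 : p ^ n = (Finset.univ : Finset (Fin n → ZMod p)).card := by
    rw [Finset.card_univ, Fintype.card_fun, ZMod.card, Fintype.card_fin]
  rw [h1, h2]
  refine Finset.card_le_card_of_injOn (fun z => z.2 + Pi.single j z.1) (fun _ _ => Finset.mem_univ _) ?_
  rintro ⟨s, b⟩ hb ⟨s', b'⟩ hb' h
  simp only [Finset.coe_product, Finset.coe_univ, Finset.coe_filter, Finset.mem_univ, true_and,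
    Set.mem_prod, Set.mem_univ, Set.mem_ofPred_eq] at hb hb'
  have h3 : ∀ (s : ZMod p) (b : Fin n → ZMod p), ∑ i, (b + Pi.single j s : Fin n → ZMod p) i * y i =
      ∑ i, b i * y i + s * y j := by
    intro s b
    simp only [Pi.add_apply, add_mul, Finset.sum_add_distrib, add_right_inj]
    rw [Finset.sum_eq_single j]
    · rw [Pi.single_eq_same]
    · intro i _ hi
      rw [Pi.single_eq_of_ne hi, zero_mul]
    · intro h; exact absurd (Finset.mem_univ j) h
  have h4 := h3 s b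
  have h5 := h3 s' b'
  have h' : b + Pi.single j s = b' + Pi.single j s' := h
  rw [h', h5, ← hb, ← hb'] at h4
  have h6 : s = s' := (mul_right_cancel₀ hj (add_left_cancel h4)).symm
  subst h6
  rw [add_right_cancel h']

/-- the matrix -/
noncomputable def mat (n p : ℕ) (b : Fin n → ℕ) : Matrix (Fin (n + 1)) (Fin (n + 1)) ℝ :=
  Fin.cons (Fin.cons (p : ℝ) (fun j => (b j : ℝ))) (fun i => Fin.cons 0 (fun j => if i = j then 1 else 0))

theorem mat_det (n p : ℕ) (b : Fin n → ℕ) : (mat n p b).det = p := by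
  rw [Matrix.det_of_isUpperTriangular]
  · rw [Fin.prod_univ_succ]
    simp [mat]
  · intro i j hij
    refine Fin.cases (fun h => ?_) (fun i' h => ?_) i hij
    · exact absurd h (Nat.not_lt_zero _)
    · refine Fin.cases (fun _ => ?_) (fun j' h => ?_) j h
      · simp [mat]
      · have : i' ≠ j' := by
          rintro rfl
          exact lt_irrefl _ h
        simp [mat, this]

theorem mat_zero (n p : ℕ) (b : Fin n → ℕ) (w : Fin (n + 1) → ℤ) :
    Matrix.mulVec (mat n p b) (fun j => (w j : ℝ)) 0 = ((p * w 0 + ∑ j, b j * w j.succ : ℤ) : ℝ) := by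
  rw [Matrix.mulVec, dotProduct, Fin.sum_univ_succ]
  simp [mat]

theorem mat_succ (n p : ℕ) (b : Fin n → ℕ) (w : Fin (n + 1) → ℤ) (i : Fin n) :
    Matrix.mulVec (mat n p b) (fun j => (w j : ℝ)) i.succ = ((w i.succ : ℤ) : ℝ) := by
  rw [Matrix.mulVec, dotProduct, Fin.sum_univ_succ]
  simp [mat]

theorem low (n : ℕ) : ((n + 1 : ℕ) : ℝ) / 144 ≤ herm (n + 1) := by
  classical
  obtain ⟨p, hp, hp1, hp2⟩ := Nat.exists_prime_lt_and_le_two_mul (6 ^ (n + 1)) (by positivity)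
  haveI : Fact p.Prime := ⟨hp⟩
  have hNp : n + 1 < p := lt_trans (Nat.lt_pow_self (by norm_num)) hp1
  obtain ⟨X, hX⟩ : ∃ X : Finset (Fin (n + 1) → ℤ), ∀ x, x ∈ X ↔ x ≠ 0 ∧ ∑ i, (x i) ^ 2 < ((n + 1 : ℕ) : ℤ) := by
    refine ⟨(Fintype.piFinset (fun _ : Fin (n + 1) => Finset.Icc (-((n + 1 : ℕ) : ℤ)) ((n + 1 : ℕ) : ℤ))).filter
      (fun x => x ≠ 0 ∧ ∑ i, (x i) ^ 2 < ((n + 1 : ℕ) : ℤ)), fun x => ?_⟩
    rw [Finset.mem_filter]
    refine ⟨fun h => h.2, fun h => ⟨?_, h⟩⟩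
    rw [Fintype.mem_piFinset]
    intro i
    have h1 : (x i) ^ 2 ≤ ∑ i, (x i) ^ 2 := Finset.single_le_sum (f := fun i => (x i) ^ 2)
      (fun j _ => sq_nonneg _) (Finset.mem_univ i)
    have h2 := h.2
    rw [Finset.mem_Icc]
    constructor <;> nlinarith
  have hcardX := short_card (n + 1) X fun x hx => ((hX x).1 hx).2
  have hsmall : ∀ x ∈ X, ∀ i, ((x i : ℤ) : ZMod p) = 0 → x i = 0 := by
    intro x hx i h0
    rw [ZMod.intCast_zmod_eq_zero_iff_dvd] at h0
    have h1 : (x i) ^ 2 ≤ ∑ i, (x i) ^ 2 := Finset.single_le_sum (f := fun i => (x i) ^ 2)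
      (fun j _ => sq_nonneg _) (Finset.mem_univ i)
    have h2 := ((hX x).1 hx).2
    refine Int.eq_zero_of_abs_lt_dvd h0 ?_
    have h3 : |x i| ≤ (x i) ^ 2 := by
      rw [← sq_abs]
      rcases (abs_nonneg (x i)).eq_or_lt' with h4 | h4
      · rw [h4]; norm_num
      · nlinarith
    have h4 : ((n + 1 : ℕ) : ℤ) < p := by exact_mod_cast hNp
    omega
  have hbad : ∀ x ∈ X, p * (Finset.univ.filter fun b : Fin n → ZMod p =>
      ((x 0 : ℤ) : ZMod p) = ∑ i, b i * ((x (Fin.succ i) : ℤ) : ZMod p)).card ≤ p ^ n := by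
    intro x hx
    by_cases hy : (fun i : Fin n => ((x (Fin.succ i) : ℤ) : ZMod p)) = 0
    · have h0 : ∀ i : Fin n, ((x (Fin.succ i) : ℤ) : ZMod p) = 0 := fun i => congrFun hy i
      have h1 : ∀ i : Fin n, x (Fin.succ i) = 0 := fun i => hsmall x hx _ (h0 i)
      have h2 : ((x 0 : ℤ) : ZMod p) ≠ 0 := by
        intro h3
        have h4 := hsmall x hx 0 h3
        refine ((hX x).1 hx).1 (funext fun i => ?_)
        refine Fin.cases h4 (fun j => h1 j) i
      rw [Finset.filter_false_of_mem]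
      · simp
      · intro b _ h5
        apply h2
        rw [h5]
        exact Finset.sum_eq_zero fun i _ => by rw [h0, mul_zero]
    · exact hyper_card _ hy _
  obtain ⟨b, hb⟩ : ∃ b : Fin n → ZMod p, ∀ x ∈ X,
      ((x 0 : ℤ) : ZMod p) ≠ ∑ i, b i * ((x (Fin.succ i) : ℤ) : ZMod p) := by
    by_contra hcon
    push Not at hcon
    have h1 : (Finset.univ : Finset (Fin n → ZMod p)) ⊆ X.biUnion fun x => Finset.univ.filter
        fun b : Fin n → ZMod p => ((x 0 : ℤ) : ZMod p) = ∑ i, b i * ((x (Fin.succ i) : ℤ) : ZMod p) := by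
      intro b _
      obtain ⟨x, hx, hxb⟩ := hcon b
      rw [Finset.mem_biUnion]
      exact ⟨x, hx, Finset.mem_filter.2 ⟨Finset.mem_univ _, hxb⟩⟩
    have h2 := (Finset.card_le_card h1).trans Finset.card_biUnion_le
    have h3 : p ^ n = (Finset.univ : Finset (Fin n → ZMod p)).card := by
      rw [Finset.card_univ, Fintype.card_fun, ZMod.card, Fintype.card_fin]
    rw [← h3] at h2
    have h4 : p * p ^ n ≤ 6 ^ (n + 1) * p ^ n := by
      calc p * p ^ n ≤ p * ∑ x ∈ X, (Finset.univ.filter fun b : Fin n → ZMod p =>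
              ((x 0 : ℤ) : ZMod p) = ∑ i, b i * ((x (Fin.succ i) : ℤ) : ZMod p)).card :=
            Nat.mul_le_mul_left _ h2
        _ = ∑ x ∈ X, p * (Finset.univ.filter fun b : Fin n → ZMod p =>
              ((x 0 : ℤ) : ZMod p) = ∑ i, b i * ((x (Fin.succ i) : ℤ) : ZMod p)).card := Finset.mul_sum _ _ _
        _ ≤ ∑ x ∈ X, p ^ n := Finset.sum_le_sum hbad
        _ = X.card * p ^ n := by rw [Finset.sum_const, smul_eq_mul]
        _ ≤ 6 ^ (n + 1) * p ^ n := Nat.mul_le_mul_right _ hcardX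
    have h5 : 0 < p ^ n := pow_pos hp.pos n
    have h6 := Nat.le_of_mul_le_mul_right h4 h5
    omega
  obtain ⟨A, hA⟩ : ∃ A, A = mat n p (fun i => (b i).val) := ⟨_, rfl⟩
  have hdet : A.det = p := by rw [hA, mat_det]
  have hp0 : (0 : ℝ) < p := by exact_mod_cast hp.pos
  have hdet0 : A.det ≠ 0 := by rw [hdet]; exact hp0.ne'
  have hmn : ((n + 1 : ℕ) : ℝ) ≤ mn A := by
    refine le_mn A fun w hw => ?_
    by_contra hcon
    push Not at hcon
    obtain ⟨x, hx⟩ : ∃ x : Fin (n + 1) → ℤ, x = Fin.cons (p * w 0 + ∑ j, ((b j).val : ℤ) * w j.succ)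
      (fun i => w i.succ) := ⟨_, rfl⟩
    have hx0 : x 0 = p * w 0 + ∑ j, ((b j).val : ℤ) * w j.succ := by rw [hx, Fin.cons_zero]
    have hxs : ∀ i : Fin n, x i.succ = w i.succ := fun i => by rw [hx, Fin.cons_succ]
    have hqf : qf A w = ((∑ i, (x i) ^ 2 : ℤ) : ℝ) := by
      rw [qf, Fin.sum_univ_succ, Fin.sum_univ_succ, hA, mat_zero, hx0]
      push_cast
      congr 1
      refine Finset.sum_congr rfl fun i _ => ?_
      rw [mat_succ, hxs]
    rw [hqf] at hcon
    have hlt : ∑ i, (x i) ^ 2 < ((n + 1 : ℕ) : ℤ) := by exact_mod_cast hcon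
    have hxne : x ≠ 0 := by
      intro h
      apply hw
      have h1 : ∀ i : Fin n, w i.succ = 0 := fun i => by rw [← hxs, h]; rfl
      have h2 : (p : ℤ) * w 0 = 0 := by
        have h3 := congrFun h 0
        rw [hx0] at h3
        simp only [h1, mul_zero, Finset.sum_const_zero, add_zero] at h3
        exact h3
      have h3 : w 0 = 0 := by
        rcases mul_eq_zero.1 h2 with h4 | h4
        · have : (p : ℤ) ≠ 0 := by exact_mod_cast hp.ne_zero
          exact absurd h4 this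
        · exact h4
      funext i
      refine Fin.cases h3 (fun j => h1 j) i
    refine hb x ((hX x).2 ⟨hxne, hlt⟩) ?_
    rw [hx0]
    push_cast
    rw [ZMod.natCast_self, zero_mul, zero_add]
    refine Finset.sum_congr rfl fun i _ => ?_
    rw [ZMod.natCast_zmod_val, hxs]
  have hv : ((n + 1 : ℕ) : ℝ) / 144 ≤ vl A := by
    rw [vl, hdet, abs_of_pos hp0]
    have h1 : (p : ℝ) ≤ 12 ^ (n + 1) := by
      have h2 : p ≤ 12 ^ (n + 1) := by
        refine hp2.trans ?_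
        have h3 : (12 : ℕ) ^ (n + 1) = 2 ^ (n + 1) * 6 ^ (n + 1) := by rw [← mul_pow]; norm_num
        rw [h3]
        refine Nat.mul_le_mul_right _ ?_
        calc 2 = 2 ^ 1 := rfl
          _ ≤ 2 ^ (n + 1) := Nat.pow_le_pow_right (by norm_num) (by omega)
      exact_mod_cast h2
    have h2 : (p : ℝ) ^ ((2 : ℝ) / ((n + 1 : ℕ) : ℝ)) ≤ 144 := by
      have h3 := Real.rpow_le_rpow hp0.le h1 (z := (2 : ℝ) / ((n + 1 : ℕ) : ℝ)) (by positivity)
      refine h3.trans ?_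
      rw [← Real.rpow_natCast, ← Real.rpow_mul (by norm_num)]
      have h4 : ((n + 1 : ℕ) : ℝ) * (2 / ((n + 1 : ℕ) : ℝ)) = 2 := by
        have : ((n + 1 : ℕ) : ℝ) ≠ 0 := by positivity
        field_simp
      rw [h4]
      norm_num
    have h3 : (0 : ℝ) < (p : ℝ) ^ ((2 : ℝ) / ((n + 1 : ℕ) : ℝ)) := Real.rpow_pos_of_pos hp0 _
    rw [div_le_div_iff₀ (by norm_num) h3]
    have h4 : (0 : ℝ) ≤ ((n + 1 : ℕ) : ℝ) := Nat.cast_nonneg _
    nlinarith
  exact hv.trans (le_herm (by omega) A hdet0)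

theorem low' {n : ℕ} (hn : 0 < n) : (n : ℝ) / 144 ≤ herm n := by
  obtain ⟨k, rfl⟩ := Nat.exists_eq_add_of_le' hn
  exact low k

end Pool.Agent.Q24.HC
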