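import Pool.Agent.Q24.HC.Slow
import Pool.Agent.Q24.HC.Low

/-!
# Hermite's constant is slowly decreasing
-/

set_option autoImplicit false

namespace Pool.Agent.Q24.HC

open Filter Topology

theorem herm_near {n k : ℕ} (hn : 0 < n) {s : ℝ} (hs1 : s ≤ 1 / 24) (hs0 : 0 ≤ s)
    (h : (k : ℝ) ≤ s ^ 2 * n) : herm n / n - 25 * s ≤ herm (n + k) / ((n + k : ℕ) : ℝ) := by
  have hn' : (0 : ℝ) < n := by exact_mod_cast hn
  rcases Nat.eq_zero_or_pos k with rfl | hk
  · rw [Nat.add_zero]; linarith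
  have hk' : (0 : ℝ) < k := by exact_mod_cast hk
  obtain ⟨g, hg⟩ : ∃ g, g = herm n := ⟨_, rfl⟩
  have hg1 : g ≤ n := by rw [hg]; exact herm_le hn
  have hg0 : 0 < g := by
    rw [hg]
    exact lt_of_lt_of_le (by positivity) (low' hn)
  have hsum := herm_sum hn hk
  obtain ⟨H, hH⟩ : ∃ H, H = herm (n + k) := ⟨_, rfl⟩
  have hH0 : 0 ≤ H := by rw [hH]; exact herm_nonneg _
  rw [← hg, ← hH] at hsum
  obtain ⟨z, hz⟩ : ∃ z : ℝ, z = k / (144 * n) := ⟨_, rfl⟩
  have hz0 : 0 < z := by rw [hz]; positivity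
  have hkz : (k : ℝ) = 144 * z * n := by rw [hz]; field_simp
  obtain ⟨r, hr⟩ : ∃ r : ℝ, r = Real.sqrt z := ⟨_, rfl⟩
  have hr0 : 0 < r := by rw [hr]; exact Real.sqrt_pos.2 hz0
  have hr2 : r ^ 2 = z := by rw [hr, Real.sq_sqrt hz0.le]
  have hr12 : 12 * r ≤ s := by
    refine le_of_pow_le_pow_left₀ two_ne_zero hs0 ?_
    rw [mul_pow, hr2, hz]
    rw [← div_le_iff₀ hn'] at h
    calc (12 : ℝ) ^ 2 * (k / (144 * n)) = k / n := by field_simp; norm_num
      _ ≤ s ^ 2 := h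
  obtain ⟨y, hy⟩ : ∃ y : ℝ, y = 288 * r := ⟨_, rfl⟩
  have hy1 : y ≤ 24 * s := by rw [hy]; linarith
  have hy0 : 0 ≤ y := by rw [hy]; positivity
  have hlog : -(2 / r) ≤ Real.log z := by
    have h1 : Real.log z = 2 * Real.log r := by rw [← hr2, Real.log_pow]; norm_num
    have h2 : Real.log (1 / r) ≤ 1 / r - 1 := Real.log_le_sub_one_of_pos (by positivity)
    rw [one_div, Real.log_inv] at h2
    rw [h1]
    have h3 : 2 / r = 2 * r⁻¹ := by ring
    rw [h3]
    linarith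
  have hpow : (1 - y) ^ (n + k) ≤ z ^ k := by
    have h1 : (1 - y) ^ (n + k) ≤ Real.exp (-(y * (n + k : ℕ))) := by
      have h2 : (1 - y) ≤ Real.exp (-y) := Real.one_sub_le_exp_neg y
      have h3 : 0 ≤ 1 - y := by linarith
      refine (pow_le_pow_left₀ h3 h2 _).trans ?_
      rw [← Real.exp_nat_mul]
      refine le_of_eq (congrArg Real.exp ?_)
      ring
    refine h1.trans ?_
    have h4 : z ^ k = Real.exp (k * Real.log z) := by
      rw [Real.exp_nat_mul, Real.exp_log hz0]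
    rw [h4, Real.exp_le_exp]
    have h5 : (k : ℝ) * -(2 / r) ≤ k * Real.log z := mul_le_mul_of_nonneg_left hlog hk'.le
    have h6 : (k : ℝ) * (2 / r) = y * n := by
      rw [hkz, hy, ← hr2]
      field_simp
      ring
    have h7 : y * n ≤ y * ((n + k : ℕ) : ℝ) := by
      refine mul_le_mul_of_nonneg_left ?_ hy0
      push_cast
      linarith
    linarith
  have hlow : g * (1 - y) ≤ H := by
    refine le_of_pow_le_pow_left₀ (n := n + k) (by omega) hH0 (le_trans ?_ hsum)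
    rw [mul_pow]
    have h1 : g * z ≤ herm k := by
      refine le_trans ?_ (low' hk)
      rw [hz]
      rw [mul_div_assoc', div_le_div_iff₀ (by positivity) (by norm_num)]
      nlinarith
    have h2 : (g * z) ^ k ≤ herm k ^ k := pow_le_pow_left₀ (by positivity) h1 k
    calc g ^ (n + k) * (1 - y) ^ (n + k) ≤ g ^ (n + k) * z ^ k :=
          mul_le_mul_of_nonneg_left hpow (by positivity)
      _ = g ^ n * (g * z) ^ k := by rw [pow_add, mul_pow]; ring
      _ ≤ g ^ n * herm k ^ k := mul_le_mul_of_nonneg_left h2 (by positivity)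
  rw [← hg, ← hH]
  have hm : (0 : ℝ) < ((n + k : ℕ) : ℝ) := by positivity
  rw [le_div_iff₀ hm]
  have h8 : (g / n) ≤ 1 := by rw [div_le_one hn']; exact hg1
  have h9 : g = (g / n) * n := by field_simp
  obtain ⟨q, hq⟩ : ∃ q, q = g / n := ⟨_, rfl⟩
  rw [← hq] at h8 h9 ⊢
  have hq0 : 0 ≤ q := by rw [hq]; positivity
  rw [h9] at hlow
  push_cast at h ⊢
  have hs2 : s ^ 2 ≤ s := by nlinarith
  have h10 : (q - 25 * s) * (n + k) ≤ q * n * (1 - y) := by
    have h11 : q * n * y ≤ n * (24 * s) := by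
      have : q * n ≤ n := by nlinarith
      nlinarith [mul_nonneg hq0 hn'.le]
    have h12 : q * k ≤ s * n := by nlinarith
    nlinarith [mul_nonneg hs0 hk'.le]
  linarith

theorem slow_herm : Slow (fun n => herm n / n) := by
  intro ε hε
  obtain ⟨s, hs⟩ : ∃ s : ℝ, s = min (1 / 24) (ε / 25) := ⟨_, rfl⟩
  have hs0 : 0 < s := by rw [hs]; exact lt_min (by norm_num) (by linarith)
  have hs1 : s ≤ 1 / 24 := by rw [hs]; exact min_le_left _ _
  have hs2 : s ≤ ε / 25 := by rw [hs]; exact min_le_right _ _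
  refine ⟨s ^ 2, by positivity, 1, fun n m hn hnm hm => ?_⟩
  obtain ⟨k, rfl⟩ := Nat.exists_eq_add_of_le hnm
  have h1 := herm_near (k := k) hn hs1 hs0.le (by push_cast at hm; linarith)
  push_cast at h1 ⊢
  linarith

theorem herm_bdd : ∀ᶠ n : ℕ in atTop, (0 : ℝ) ≤ herm n / n ∧ herm n / n ≤ 1 := by
  filter_upwards [eventually_gt_atTop 0] with n hn
  have hn' : (0 : ℝ) < n := by exact_mod_cast hn
  exact ⟨div_nonneg (herm_nonneg n) hn'.le, by rw [div_le_one hn']; exact herm_le hn⟩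

end Pool.Agent.Q24.HC
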