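import Mathlib

/-!
# Hermite's constant: bounds and direct sums
-/

set_option autoImplicit false

namespace Pool.Agent.Q24.HC

open MeasureTheory Module

/-- the quadratic form of a matrix on integral vectors -/
noncomputable def qf {ι : Type} [Fintype ι] (A : Matrix ι ι ℝ) (w : ι → ℤ) : ℝ :=
  ∑ i, (Matrix.mulVec A (fun j => (w j : ℝ))) i ^ 2

/-- the minimum -/
noncomputable def mn {ι : Type} [Fintype ι] (A : Matrix ι ι ℝ) : ℝ := ⨅ w : {w : ι → ℤ // w ≠ 0}, qf A w.1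

/-- Hermite's constant -/
noncomputable def herm (n : ℕ) : ℝ :=
  ⨆ A : {A : Matrix (Fin n) (Fin n) ℝ // A.det ≠ 0},
    (⨅ w : {w : Fin n → ℤ // w ≠ 0}, ∑ i, (Matrix.mulVec A.1 (fun j => (w.1 j : ℝ))) i ^ 2)
      / |A.1.det| ^ ((2 : ℝ) / (n : ℝ))

section

variable {ι : Type} [Fintype ι]

theorem qf_nonneg (A : Matrix ι ι ℝ) (w : ι → ℤ) : 0 ≤ qf A w := Finset.sum_nonneg fun _ _ => sq_nonneg _

theorem mn_nonneg (A : Matrix ι ι ℝ) : 0 ≤ mn A := Real.iInf_nonneg fun _ => qf_nonneg _ _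

theorem mn_le (A : Matrix ι ι ℝ) {w : ι → ℤ} (hw : w ≠ 0) : mn A ≤ qf A w :=
  ciInf_le ⟨0, by rintro _ ⟨w, rfl⟩; exact qf_nonneg _ _⟩ (⟨w, hw⟩ : {w : ι → ℤ // w ≠ 0})

theorem le_mn [Nonempty ι] (A : Matrix ι ι ℝ) {c : ℝ} (h : ∀ w : ι → ℤ, w ≠ 0 → c ≤ qf A w) : c ≤ mn A := by
  have : Nonempty {w : ι → ℤ // w ≠ 0} := ⟨⟨fun _ => 1, fun h => by
    have := congrFun h (Classical.arbitrary ι)
    simp at this⟩⟩
  exact le_ciInf fun w => h w.1 w.2

end

/-- Minkowski's theorem for cubes -/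
theorem mink {n : ℕ} (A : Matrix (Fin n) (Fin n) ℝ) (hA : A.det ≠ 0) (t : ℝ) (ht : 0 < t) (h : |A.det| < t ^ n) :
    ∃ w : Fin n → ℤ, w ≠ 0 ∧ ∀ i, |(Matrix.mulVec A (fun j => (w j : ℝ))) i| ≤ t := by
  classical
  have hli : LinearIndependent ℝ A.col := by
    rw [Matrix.linearIndependent_cols_iff_isUnit, Matrix.isUnit_iff_isUnit_det]
    exact isUnit_iff_ne_zero.2 hA
  let b : Basis (Fin n) ℝ (Fin n → ℝ) := basisOfPiSpaceOfLinearIndependent hli
  have hb : (b : Fin n → Fin n → ℝ) = A.col := coe_basisOfPiSpaceOfLinearIndependent hli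
  have hvol : volume (ZSpan.fundamentalDomain b) = ENNReal.ofReal |A.det| := by
    rw [ZSpan.volume_fundamentalDomain, ← Matrix.det_transpose A]
    congr 3
  have hfund := ZSpan.isAddFundamentalDomain' b volume
  have hs : volume (Set.Icc (fun _ : Fin n => -t) (fun _ : Fin n => t)) = ENNReal.ofReal ((2 * t) ^ n) := by
    rw [Real.volume_Icc_pi]
    simp only [sub_neg_eq_add, Finset.prod_const, Finset.card_univ, Fintype.card_fin]
    rw [← ENNReal.ofReal_pow (by linarith)]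
    congr 2
    ring
  have hcount : Countable (Submodule.span ℤ (Set.range b)).toAddSubgroup := by
    show Countable (Submodule.span ℤ (Set.range b))
    infer_instance
  obtain ⟨x, hx0, hx⟩ := exists_ne_zero_mem_lattice_of_measure_mul_two_pow_lt_measure (μ := volume)
    (s := Set.Icc (fun _ : Fin n => -t) (fun _ : Fin n => t)) hfund (by
      intro x hx
      exact ⟨fun i => neg_le_neg (hx.2 i), fun i => by
        have := hx.1 i
        show -x i ≤ t
        linarith⟩) (convex_Icc _ _) (by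
      rw [hvol, hs, finrank_fin_fun, ← ENNReal.ofReal_ofNat, ← ENNReal.ofReal_pow (by norm_num),
        ← ENNReal.ofReal_mul (abs_nonneg _), mul_pow]
      refine (ENNReal.ofReal_lt_ofReal_iff (by positivity)).2 ?_
      have : (0 : ℝ) < 2 ^ n := by positivity
      nlinarith)
  have hmem : (x : Fin n → ℝ) ∈ Submodule.span ℤ (Set.range b) := x.2
  rw [Submodule.mem_span_range_iff_exists_fun] at hmem
  obtain ⟨c, hc⟩ := hmem
  have hval : ∀ i, (Matrix.mulVec A (fun j => (c j : ℝ))) i = (x : Fin n → ℝ) i := by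
    intro i
    rw [← hc, Finset.sum_apply, Matrix.mulVec, dotProduct]
    refine Finset.sum_congr rfl fun j _ => ?_
    rw [hb]
    simp only [Pi.smul_apply, Matrix.col_apply, zsmul_eq_mul]
    ring
  refine ⟨c, ?_, fun i => ?_⟩
  · rintro rfl
    refine hx0 (Subtype.ext ?_)
    rw [← hc]
    simp
  · rw [hval]
    exact abs_le.2 ⟨hx.1 i, hx.2 i⟩

theorem mn_le_mink {n : ℕ} (hn : 0 < n) (A : Matrix (Fin n) (Fin n) ℝ) (hA : A.det ≠ 0) {t : ℝ} (ht : 0 ≤ t)
    (h : |A.det| = t ^ n) : mn A ≤ n * t ^ 2 := by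
  have hn' : (0 : ℝ) < n := by exact_mod_cast hn
  by_contra hcon
  push Not at hcon
  obtain ⟨s, hs⟩ : ∃ s : ℝ, s = Real.sqrt ((mn A / n + t ^ 2) / 2) := ⟨_, rfl⟩
  have h0 : t ^ 2 < mn A / n := by rw [lt_div_iff₀ hn']; linarith
  have hs2 : s ^ 2 = (mn A / n + t ^ 2) / 2 := by
    rw [hs, Real.sq_sqrt]
    have := sq_nonneg t
    linarith
  have hs0 : 0 ≤ s := by rw [hs]; exact Real.sqrt_nonneg _
  have hst : t < s := by
    refine lt_of_pow_lt_pow_left₀ 2 hs0 ?_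
    rw [hs2]; linarith
  obtain ⟨w, hw, hw2⟩ := mink A hA s (by linarith) (by
    rw [h]; exact pow_lt_pow_left₀ hst ht (by omega))
  have h1 := mn_le A hw
  have h2 : qf A w ≤ n * s ^ 2 := by
    unfold qf
    refine (Finset.sum_le_card_nsmul _ _ (s ^ 2) fun i _ => ?_).trans ?_
    · rw [← sq_abs]
      exact pow_le_pow_left₀ (abs_nonneg _) (hw2 i) 2
    · rw [Finset.card_univ, Fintype.card_fin, nsmul_eq_mul]
  rw [hs2] at h2
  have h3 : (n : ℝ) * ((mn A / n + t ^ 2) / 2) < mn A := by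
    have : mn A = n * (mn A / n) := by field_simp
    nlinarith
  linarith

/-- the value of a matrix -/
noncomputable def vl {n : ℕ} (A : Matrix (Fin n) (Fin n) ℝ) : ℝ := mn A / |A.det| ^ ((2 : ℝ) / (n : ℝ))

theorem vl_nonneg {n : ℕ} (A : Matrix (Fin n) (Fin n) ℝ) : 0 ≤ vl A :=
  div_nonneg (mn_nonneg A) (Real.rpow_nonneg (abs_nonneg _) _)

theorem vl_pow {n : ℕ} (hn : 0 < n) (A : Matrix (Fin n) (Fin n) ℝ) :
    vl A ^ n = mn A ^ n / |A.det| ^ 2 := by
  have hn' : (n : ℝ) ≠ 0 := by exact_mod_cast hn.ne'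
  rw [vl, div_pow, ← Real.rpow_natCast (|A.det| ^ ((2 : ℝ) / (n : ℝ))), ← Real.rpow_mul (abs_nonneg _),
    div_mul_cancel₀ _ hn']
  norm_num

theorem vl_le {n : ℕ} (hn : 0 < n) (A : Matrix (Fin n) (Fin n) ℝ) (hA : A.det ≠ 0) : vl A ≤ n := by
  have hn' : (n : ℝ) ≠ 0 := by exact_mod_cast hn.ne'
  have hd : 0 < |A.det| := abs_pos.2 hA
  have h1 : |A.det| = (|A.det| ^ ((1 : ℝ) / n)) ^ n := by
    rw [← Real.rpow_natCast, ← Real.rpow_mul hd.le, div_mul_cancel₀ _ hn', Real.rpow_one]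
  have h2 := mn_le_mink hn A hA (Real.rpow_nonneg hd.le _) h1
  have h3 : (|A.det| ^ ((1 : ℝ) / n)) ^ 2 = |A.det| ^ ((2 : ℝ) / (n : ℝ)) := by
    rw [← Real.rpow_natCast, ← Real.rpow_mul hd.le]
    congr 1
    push_cast
    ring
  rw [h3] at h2
  rw [vl, div_le_iff₀ (Real.rpow_pos_of_pos hd _)]
  exact h2

theorem herm_eq (n : ℕ) : herm n = ⨆ A : {A : Matrix (Fin n) (Fin n) ℝ // A.det ≠ 0}, vl A.1 := rfl

theorem bdd {n : ℕ} (hn : 0 < n) :
    BddAbove (Set.range fun A : {A : Matrix (Fin n) (Fin n) ℝ // A.det ≠ 0} => vl A.1) :=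
  ⟨n, by rintro _ ⟨A, rfl⟩; exact vl_le hn A.1 A.2⟩

theorem le_herm {n : ℕ} (hn : 0 < n) (A : Matrix (Fin n) (Fin n) ℝ) (hA : A.det ≠ 0) : vl A ≤ herm n := by
  rw [herm_eq]
  exact le_ciSup (f := fun A : {A : Matrix (Fin n) (Fin n) ℝ // A.det ≠ 0} => vl A.1) (bdd hn) ⟨A, hA⟩

theorem herm_le_of {n : ℕ} {c : ℝ} (h : ∀ A : Matrix (Fin n) (Fin n) ℝ, A.det ≠ 0 → vl A ≤ c) : herm n ≤ c := by
  have : Nonempty {A : Matrix (Fin n) (Fin n) ℝ // A.det ≠ 0} := ⟨⟨1, by simp⟩⟩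
  rw [herm_eq]
  exact ciSup_le fun A => h A.1 A.2

theorem herm_le {n : ℕ} (hn : 0 < n) : herm n ≤ n := herm_le_of fun A hA => vl_le hn A hA

theorem herm_nonneg (n : ℕ) : 0 ≤ herm n := by
  rw [herm_eq]
  exact Real.iSup_nonneg fun A => vl_nonneg A.1

theorem herm_pow_le {n : ℕ} (hn : 0 < n) {c : ℝ} (hc : 0 ≤ c)
    (h : ∀ A : Matrix (Fin n) (Fin n) ℝ, A.det ≠ 0 → vl A ^ n ≤ c) : herm n ^ n ≤ c := by
  have hn' : (n : ℝ) ≠ 0 := by exact_mod_cast hn.ne'
  have h1 : herm n ≤ c ^ ((1 : ℝ) / n) := by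
    refine herm_le_of fun A hA => ?_
    have h2 := h A hA
    refine le_of_pow_le_pow_left₀ hn.ne' (Real.rpow_nonneg hc _) (h2.trans ?_)
    rw [← Real.rpow_natCast (c ^ ((1 : ℝ) / n)), ← Real.rpow_mul hc, div_mul_cancel₀ _ hn', Real.rpow_one]
  have h2 := pow_le_pow_left₀ (herm_nonneg n) h1 n
  rwa [← Real.rpow_natCast (c ^ ((1 : ℝ) / n)), ← Real.rpow_mul hc, div_mul_cancel₀ _ hn', Real.rpow_one] at h2

/-- the direct sum -/
theorem vl_sum {n k : ℕ} (hn : 0 < n) (hk : 0 < k) (A : Matrix (Fin n) (Fin n) ℝ) (hA : A.det ≠ 0)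
    (B : Matrix (Fin k) (Fin k) ℝ) (hB : B.det ≠ 0) : vl A ^ n * vl B ^ k ≤ herm (n + k) ^ (n + k) := by
  rcases (mn_nonneg A).eq_or_lt' with hmA | hmA
  · have : vl A = 0 := by rw [vl, hmA, zero_div]
    rw [this, zero_pow hn.ne', zero_mul]
    exact pow_nonneg (herm_nonneg _) _
  rcases (mn_nonneg B).eq_or_lt' with hmB | hmB
  · have : vl B = 0 := by rw [vl, hmB, zero_div]
    rw [this, zero_pow hk.ne', mul_zero]
    exact pow_nonneg (herm_nonneg _) _
  obtain ⟨t, ht⟩ : ∃ t : ℝ, t = Real.sqrt (mn A / mn B) := ⟨_, rfl⟩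
  have ht2 : t ^ 2 = mn A / mn B := by rw [ht, Real.sq_sqrt (by positivity)]
  have ht0 : 0 < t := by rw [ht]; exact Real.sqrt_pos.2 (by positivity)
  obtain ⟨C, hC⟩ : ∃ C : Matrix (Fin (n + k)) (Fin (n + k)) ℝ,
      C = (Matrix.fromBlocks A 0 0 (t • B)).submatrix finSumFinEquiv.symm finSumFinEquiv.symm := ⟨_, rfl⟩
  have hdet : C.det = A.det * (t ^ k * B.det) := by
    rw [hC, Matrix.det_submatrix_equiv_self, Matrix.det_fromBlocks_zero₂₁, Matrix.det_smul, Fintype.card_fin]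
  have hC0 : C.det ≠ 0 := by
    rw [hdet]
    exact mul_ne_zero hA (mul_ne_zero (pow_ne_zero _ ht0.ne') hB)
  have hq : ∀ w : Fin (n + k) → ℤ, qf C w =
      qf A (fun i => w (Fin.castAdd k i)) + t ^ 2 * qf B (fun i => w (Fin.natAdd n i)) := by
    intro w
    unfold qf
    rw [Fin.sum_univ_add, Finset.mul_sum]
    refine congrArg₂ (· + ·) (Finset.sum_congr rfl fun i _ => ?_) (Finset.sum_congr rfl fun i _ => ?_)
    · congr 1
      rw [hC, Matrix.mulVec, dotProduct, Fin.sum_univ_add, Matrix.mulVec, dotProduct]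
      have h2 : ∑ j : Fin k, (Matrix.fromBlocks A 0 0 (t • B)).submatrix finSumFinEquiv.symm finSumFinEquiv.symm
          (Fin.castAdd k i) (Fin.natAdd n j) * (w (Fin.natAdd n j) : ℝ) = 0 := by
        refine Finset.sum_eq_zero fun j _ => ?_
        simp
      rw [h2, add_zero]
      refine Finset.sum_congr rfl fun j _ => ?_
      simp
    · rw [← mul_pow]
      congr 1
      rw [hC, Matrix.mulVec, dotProduct, Fin.sum_univ_add, Matrix.mulVec, dotProduct, Finset.mul_sum]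
      have h2 : ∑ j : Fin n, (Matrix.fromBlocks A 0 0 (t • B)).submatrix finSumFinEquiv.symm finSumFinEquiv.symm
          (Fin.natAdd n i) (Fin.castAdd k j) * (w (Fin.castAdd k j) : ℝ) = 0 := by
        refine Finset.sum_eq_zero fun j _ => ?_
        simp
      rw [h2, zero_add]
      refine Finset.sum_congr rfl fun j _ => ?_
      simp [mul_assoc]
  have hne : Nonempty (Fin (n + k)) := ⟨⟨0, by omega⟩⟩
  have hmC : mn A ≤ mn C := by
    refine le_mn C fun w hw => ?_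
    rw [hq]
    by_cases h1 : (fun i => w (Fin.castAdd k i)) = 0
    · have h2 : (fun i => w (Fin.natAdd n i)) ≠ 0 := by
        intro h2
        apply hw
        funext i
        refine Fin.addCases (fun j => ?_) (fun j => ?_) i
        · exact congrFun h1 j
        · exact congrFun h2 j
      have h3 := mn_le B h2
      have h4 : t ^ 2 * mn B = mn A := by rw [ht2]; field_simp
      have h5 := qf_nonneg A (fun i => w (Fin.castAdd k i))
      have h6 : t ^ 2 * mn B ≤ t ^ 2 * qf B (fun i => w (Fin.natAdd n i)) :=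
        mul_le_mul_of_nonneg_left h3 (sq_nonneg t)
      linarith
    · have h3 := mn_le A h1
      have h5 : 0 ≤ t ^ 2 * qf B (fun i => w (Fin.natAdd n i)) := mul_nonneg (sq_nonneg _) (qf_nonneg _ _)
      linarith
  have h1 : vl C ^ (n + k) ≤ herm (n + k) ^ (n + k) :=
    pow_le_pow_left₀ (vl_nonneg C) (le_herm (by omega) C hC0) _
  refine le_trans ?_ h1
  rw [vl_pow hn A, vl_pow hk B, vl_pow (by omega) C]
  have hdC : |C.det| ^ 2 = |A.det| ^ 2 * ((t ^ 2) ^ k * |B.det| ^ 2) := by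
    rw [hdet, abs_mul, abs_mul, abs_pow, abs_of_pos ht0]
    ring
  rw [hdC, ht2]
  have hdA : 0 < |A.det| := abs_pos.2 hA
  have hdB : 0 < |B.det| := abs_pos.2 hB
  rw [le_div_iff₀ (by positivity)]
  have e : mn A ^ n / |A.det| ^ 2 * (mn B ^ k / |B.det| ^ 2) * (|A.det| ^ 2 * ((mn A / mn B) ^ k * |B.det| ^ 2)) =
      mn A ^ (n + k) := by
    rw [div_pow, pow_add]
    field_simp
  rw [e]
  exact pow_le_pow_left₀ hmA.le hmC _

/-- superadditivity -/
theorem herm_sum {n k : ℕ} (hn : 0 < n) (hk : 0 < k) : herm n ^ n * herm k ^ k ≤ herm (n + k) ^ (n + k) := by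
  have hH : 0 ≤ herm (n + k) ^ (n + k) := pow_nonneg (herm_nonneg _) _
  have key : ∀ B : Matrix (Fin k) (Fin k) ℝ, B.det ≠ 0 → herm n ^ n * vl B ^ k ≤ herm (n + k) ^ (n + k) := by
    intro B hB
    rcases (vl_nonneg B).eq_or_lt' with h0 | h0
    · rw [h0, zero_pow hk.ne', mul_zero]; exact hH
    · have hp : 0 < vl B ^ k := pow_pos h0 k
      rw [← le_div_iff₀ hp]
      refine herm_pow_le hn (by positivity) fun A hA => ?_
      rw [le_div_iff₀ hp]
      exact vl_sum hn hk A hA B hB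
  rcases (herm_nonneg n).eq_or_lt' with h0 | h0
  · rw [h0, zero_pow hn.ne', zero_mul]; exact hH
  · have hp : 0 < herm n ^ n := pow_pos h0 n
    rw [mul_comm, ← le_div_iff₀ hp]
    refine herm_pow_le hk (by positivity) fun B hB => ?_
    rw [le_div_iff₀ hp, mul_comm]
    exact key B hB

end Pool.Agent.Q24.HC
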