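import Mathlib

/-!
# Slowly decreasing sequences

A real sequence `f` is slowly decreasing if for each `ε > 0` there are `δ > 0` and `N` with `f m ≥ f n - ε` for all
`n ≥ N` and `n ≤ m ≤ (1 + δ) n`.
-/

set_option autoImplicit false

namespace Pool.Agent.Q24.HC

open Filter Topology

/-- slowly decreasing sequences -/
def Slow (f : ℕ → ℝ) : Prop :=
  ∀ ε : ℝ, 0 < ε → ∃ δ : ℝ, 0 < δ ∧ ∃ N : ℕ, ∀ n m : ℕ, N ≤ n → n ≤ m → (m : ℝ) ≤ (1 + δ) * n → f n - ε ≤ f m

variable {f : ℕ → ℝ}

theorem bddA {a b : ℝ} (h : ∀ᶠ n in atTop, a ≤ f n ∧ f n ≤ b) :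
    IsBoundedUnder (· ≤ ·) atTop f := ⟨b, by
      rw [Filter.eventually_map]; exact h.mono fun _ h => h.2⟩

theorem bddB {a b : ℝ} (h : ∀ᶠ n in atTop, a ≤ f n ∧ f n ≤ b) :
    IsBoundedUnder (· ≥ ·) atTop f := ⟨a, by
      rw [Filter.eventually_map]; exact h.mono fun _ h => h.1⟩

/-- the cluster points of a bounded slowly decreasing sequence form a compact interval -/
theorem Slow.clusters (hf : Slow f) {a b : ℝ} (hb : ∀ᶠ n in atTop, a ≤ f n ∧ f n ≤ b) :
    {x : ℝ | MapClusterPt x atTop f} = Set.Icc (liminf f atTop) (limsup f atTop) := by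
  have hA := bddA hb
  have hB := bddB hb
  ext c
  rw [Set.mem_ofPred_eq, Set.mem_Icc]
  constructor
  · intro hc
    rw [mapClusterPt_iff_frequently] at hc
    constructor
    · refine le_of_forall_pos_le_add fun ε hε => ?_
      have h1 := hc (Set.Iio (c + ε)) (Iio_mem_nhds (by linarith))
      exact liminf_le_of_frequently_le (h1.mono fun n hn => (le_of_lt hn)) hB
    · refine le_of_forall_pos_le_add fun ε hε => ?_
      have h1 := hc (Set.Ioi (c - ε)) (Ioi_mem_nhds (by linarith))
      have h2 := le_limsup_of_frequently_le (h1.mono fun n hn => (le_of_lt hn)) hA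
      linarith
  · rintro ⟨h1, h2⟩
    rw [mapClusterPt_iff_frequently]
    intro s hs
    obtain ⟨ε, hε, hs2⟩ := Metric.mem_nhds_iff.1 hs
    rw [Filter.frequently_atTop]
    intro N0
    by_contra hcon
    push Not at hcon
    obtain ⟨δ, hδ, N, hN⟩ := hf ε hε
    obtain ⟨N2, hN2⟩ := exists_nat_gt (1 / δ)
    have hfar : ∀ n, N0 ≤ n → ε ≤ |f n - c| := by
      intro n hn
      by_contra h
      push Not at h
      exact hcon n hn (hs2 (by rw [Metric.mem_ball, Real.dist_eq]; exact h))
    have hstep : ∀ n, max N0 (max N N2) ≤ n → c + ε ≤ f n → c + ε ≤ f (n + 1) := by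
      intro n hn hc
      have hn1 : N0 ≤ n := le_trans (le_max_left _ _) hn
      have hn2 : N ≤ n := le_trans ((le_max_left _ _).trans (le_max_right _ _)) hn
      have hn3 : N2 ≤ n := le_trans ((le_max_right _ _).trans (le_max_right _ _)) hn
      have h3 : (1 : ℝ) ≤ δ * n := by
        have h4 : (1 : ℝ) / δ < n := lt_of_lt_of_le hN2 (by exact_mod_cast hn3)
        rw [div_lt_iff₀ hδ] at h4
        linarith
      have h5 := hN n (n + 1) hn2 (Nat.le_succ n) (by push_cast; linarith)
      have h6 := hfar (n + 1) (by omega)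
      rcases le_or_gt (f (n + 1)) c with h7 | h7
      · have h8 : f (n + 1) = c := le_antisymm h7 (by linarith)
        rw [h8, sub_self, abs_zero] at h6
        linarith
      · rw [abs_of_pos (by linarith)] at h6
        linarith
    by_cases hex : ∃ n0, max N0 (max N N2) ≤ n0 ∧ c + ε ≤ f n0
    · obtain ⟨n0, hn0, hn1⟩ := hex
      have h3 : ∀ k, c + ε ≤ f (n0 + k) := by
        intro k
        induction k with
        | zero => exact hn1
        | succ k ih => exact hstep (n0 + k) (by omega) ih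
      have h4 : c + ε ≤ liminf f atTop := by
        refine le_liminf_of_le hA.isCoboundedUnder_ge ?_
        filter_upwards [eventually_ge_atTop n0] with n hn
        obtain ⟨k, rfl⟩ := Nat.exists_eq_add_of_le hn
        exact h3 k
      linarith
    · push Not at hex
      have h4 : limsup f atTop ≤ c - ε := by
        refine limsup_le_of_le hB.isCoboundedUnder_le ?_
        filter_upwards [eventually_ge_atTop (max N0 (max N N2))] with n hn
        have h5 := hex n hn
        have h6 := hfar n (le_trans (le_max_left _ _) hn)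
        rcases le_total (f n) c with h7 | h7
        · rw [abs_of_nonpos (by linarith)] at h6
          linarith
        · rw [abs_of_nonneg (by linarith)] at h6
          linarith
      linarith

/-- an index between two consecutive terms -/
theorem between {u : ℕ → ℕ} (hu : Tendsto u atTop atTop) (j0 n : ℕ) (hn : u j0 ≤ n) :
    ∃ j, j0 ≤ j ∧ u j ≤ n ∧ n < u (j + 1) := by
  classical
  obtain ⟨J, hJ⟩ := (tendsto_atTop.1 hu (n + 1)).exists_forall_of_atTop
  have hex : ∃ k, n < u (j0 + k + 1) := ⟨J, by have := hJ (j0 + J + 1) (by omega); omega⟩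
  refine ⟨j0 + Nat.find hex, by omega, ?_, Nat.find_spec hex⟩
  rcases Nat.eq_zero_or_pos (Nat.find hex) with h | h
  · rw [h]; exact hn
  · have h1 := Nat.find_min hex (m := Nat.find hex - 1) (by omega)
    have h2 : j0 + (Nat.find hex - 1) + 1 = j0 + Nat.find hex := by omega
    rw [h2] at h1
    omega

/-- the comparison with a sequence of indices with quotients tending to one -/
theorem Slow.near (hf : Slow f) {u : ℕ → ℕ} (hu : Tendsto u atTop atTop)
    (hr : Tendsto (fun j => (u (j + 1) : ℝ) / u j) atTop (𝓝 1)) (ε : ℝ) (hε : 0 < ε) (J : ℕ) :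
    ∀ᶠ n in atTop, ∃ j, J ≤ j ∧ f (u j) - ε ≤ f n ∧ f n ≤ f (u (j + 1)) + ε := by
  obtain ⟨δ, hδ, N, hN⟩ := hf ε hε
  have h1 : ∀ᶠ j in atTop, (u (j + 1) : ℝ) / u j < 1 + δ := hr.eventually (Iio_mem_nhds (by linarith))
  have h2 : ∀ᶠ j in atTop, max N 1 ≤ u j := tendsto_atTop.1 hu _
  obtain ⟨J1, hJ1⟩ := (h1.and h2).exists_forall_of_atTop
  filter_upwards [eventually_ge_atTop (u (max J J1))] with n hn
  obtain ⟨j, hj, hjn, hnj⟩ := between hu _ n hn
  have hjJ1 : J1 ≤ j := (le_max_right _ _).trans hj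
  have h3 := hJ1 j hjJ1
  have hN' : N ≤ u j := (le_max_left _ _).trans h3.2
  have hpos : (0 : ℝ) < u j := by
    have : 1 ≤ u j := (le_max_right _ _).trans h3.2
    exact_mod_cast this
  have h4 : (u (j + 1) : ℝ) ≤ (1 + δ) * u j := by
    have := h3.1
    rw [div_lt_iff₀ hpos] at this
    exact this.le
  have hnj' : (n : ℝ) ≤ u (j + 1) := by exact_mod_cast hnj.le
  have hjn' : (u j : ℝ) ≤ n := by exact_mod_cast hjn
  refine ⟨j, (le_max_left _ _).trans hj, hN (u j) n hN' hjn (hnj'.trans h4), ?_⟩
  have h5 := hN n (u (j + 1)) (hN'.trans hjn) hnj.le (h4.trans (by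
    have : 0 ≤ 1 + δ := by linarith
    exact mul_le_mul_of_nonneg_left hjn' this))
  linarith

/-- upper and lower limits along a sequence of indices with quotients tending to one -/
theorem Slow.limits (hf : Slow f) {a b : ℝ} (hb : ∀ᶠ n in atTop, a ≤ f n ∧ f n ≤ b) {u : ℕ → ℕ}
    (hu : Tendsto u atTop atTop) (hr : Tendsto (fun j => (u (j + 1) : ℝ) / u j) atTop (𝓝 1)) :
    limsup (fun j => f (u j)) atTop = limsup f atTop ∧ liminf (fun j => f (u j)) atTop = liminf f atTop := by
  have hA := bddA hb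
  have hB := bddB hb
  have hb' : ∀ᶠ j in atTop, a ≤ f (u j) ∧ f (u j) ≤ b := hu.eventually hb
  have hA' := bddA hb'
  have hB' := bddB hb'
  refine ⟨le_antisymm ?_ ?_, le_antisymm ?_ ?_⟩
  · refine le_of_forall_pos_le_add fun ε hε => ?_
    refine limsup_le_of_le hB'.isCoboundedUnder_le ?_
    have h1 : ∀ᶠ n in atTop, f n < limsup f atTop + ε := eventually_lt_of_limsup_lt (by linarith) hA
    exact (hu.eventually h1).mono fun _ h => h.le
  · refine le_of_forall_pos_le_add fun ε hε => ?_
    refine limsup_le_of_le hB.isCoboundedUnder_le ?_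
    have h1 : ∀ᶠ j in atTop, f (u j) < limsup (fun j => f (u j)) atTop + ε / 2 :=
      eventually_lt_of_limsup_lt (by linarith) hA'
    obtain ⟨J, hJ⟩ := h1.exists_forall_of_atTop
    filter_upwards [hf.near hu hr (ε / 2) (by linarith) J] with n hn
    obtain ⟨j, hj, _, h3⟩ := hn
    have h4 := hJ (j + 1) (by omega)
    linarith
  · refine le_of_forall_pos_le_add fun ε hε => ?_
    have h5 : liminf (fun j => f (u j)) atTop - ε ≤ liminf f atTop := by
      refine le_liminf_of_le hA.isCoboundedUnder_ge ?_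
      have h1 : ∀ᶠ j in atTop, liminf (fun j => f (u j)) atTop - ε / 2 < f (u j) :=
        eventually_lt_of_lt_liminf (by linarith) hB'
      obtain ⟨J, hJ⟩ := h1.exists_forall_of_atTop
      filter_upwards [hf.near hu hr (ε / 2) (by linarith) J] with n hn
      obtain ⟨j, hj, h2, _⟩ := hn
      have h4 := hJ j hj
      linarith
    linarith
  · refine le_of_forall_pos_le_add fun ε hε => ?_
    have h5 : liminf f atTop - ε ≤ liminf (fun j => f (u j)) atTop := by
      refine le_liminf_of_le hA'.isCoboundedUnder_ge ?_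
      have h1 : ∀ᶠ n in atTop, liminf f atTop - ε < f n := eventually_lt_of_lt_liminf (by linarith) hB
      exact (hu.eventually h1).mono fun _ h => h.le
    linarith

/-- convergence along one sequence of indices with quotients tending to one -/
theorem Slow.tendsto (hf : Slow f) {u : ℕ → ℕ} (hu : Tendsto u atTop atTop)
    (hr : Tendsto (fun j => (u (j + 1) : ℝ) / u j) atTop (𝓝 1)) {x : ℝ}
    (hx : Tendsto (fun j => f (u j)) atTop (𝓝 x)) : Tendsto f atTop (𝓝 x) := by
  rw [Metric.tendsto_nhds]
  intro ε hε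
  have h1 : ∀ᶠ j in atTop, dist (f (u j)) x < ε / 2 := (Metric.tendsto_nhds.1 hx) _ (by linarith)
  obtain ⟨J, hJ⟩ := h1.exists_forall_of_atTop
  filter_upwards [hf.near hu hr (ε / 2) (by linarith) J] with n hn
  obtain ⟨j, hj, h2, h3⟩ := hn
  have h4 := hJ j hj
  have h5 := hJ (j + 1) (by omega)
  rw [Real.dist_eq, abs_lt] at h4 h5 ⊢
  constructor <;> linarith

end Pool.Agent.Q24.HC
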